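import Mathlib
import Pool.Agent.Helper50.Canon.NoSignProof
import Pool.Agent.Helper50.Canon.Final

/-!
The set `{0, 1, 2}` of the real line is canonically Ramsey but not Ramsey.
-/

set_option autoImplicit false

namespace Pool.Agent.Results.MP_3ba0ec_co.CanonicalNotRamsey

universe u

/-- Euclidean `k`-space. -/
abbrev E (k : ℕ) : Type := EuclideanSpace ℝ (Fin k)

/-- `T` is monochromatic for the colouring `c`: `c` is constant on `T`. -/
def Monochromatic {X : Type} {C : Type u} (c : X → C) (T : Set X) : Prop :=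
  ∀ x ∈ T, ∀ y ∈ T, c x = c y

/-- `T` is rainbow for the colouring `c`: `c` is injective on `T`. -/
def Rainbow {X : Type} {C : Type u} (c : X → C) (T : Set X) : Prop :=
  Set.InjOn c T

/-- `S` is Ramsey: for every `r ≥ 1` there is `n ≥ k` such that for every `r`-colouring of `ℝⁿ`
some copy `φ(S)` of `S`, `φ` an isometric embedding of `ℝᵏ` into `ℝⁿ`, is monochromatic. -/
def IsRamsey {k : ℕ} (S : Set (E k)) : Prop :=
  ∀ r : ℕ, 1 ≤ r → ∃ n : ℕ, k ≤ n ∧ ∀ c : E n → Fin r,
    ∃ φ : E k → E n, Isometry φ ∧ Monochromatic c (φ '' S)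

/-- `S` is canonically Ramsey: there is `n ≥ k` such that for every colouring of `ℝⁿ` with any set
`C` of colours some copy `φ(S)` of `S` is monochromatic or rainbow. -/
def IsCanonicallyRamsey {k : ℕ} (S : Set (E k)) : Prop :=
  ∃ n : ℕ, k ≤ n ∧ ∀ (C : Type u) (c : E n → C),
    ∃ φ : E k → E n, Isometry φ ∧ (Monochromatic c (φ '' S) ∨ Rainbow c (φ '' S))

/-- the subset `{0, 1, 2}` of the line `ℝ¹` -/
def zeroOneTwo : Set (E 1) := {x | x 0 = 0 ∨ x 0 = 1 ∨ x 0 = 2}

/-- the point of the line with coordinate `a` -/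
noncomputable def pt (a : ℝ) : E 1 := EuclideanSpace.single 0 a

theorem pt_apply (a : ℝ) : pt a 0 = a := by simp [pt]

theorem eq_pt {x : E 1} {a : ℝ} (h : x 0 = a) : x = pt a := by
  ext i
  rw [Subsingleton.elim i 0, h, pt_apply]

theorem zeroOneTwo_eq : zeroOneTwo = {pt 0, pt 1, pt 2} := by
  ext x
  simp only [zeroOneTwo, Set.mem_ofPred_eq, Set.mem_insert_iff, Set.mem_singleton_iff]
  constructor
  · rintro (h | h | h)
    · exact Or.inl (eq_pt h)
    · exact Or.inr (Or.inl (eq_pt h))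
    · exact Or.inr (Or.inr (eq_pt h))
  · rintro (h | h | h)
    · exact Or.inl (by rw [h, pt_apply])
    · exact Or.inr (Or.inl (by rw [h, pt_apply]))
    · exact Or.inr (Or.inr (by rw [h, pt_apply]))

theorem dist_pt (a b : ℝ) : dist (pt a) (pt b) = |a - b| := by
  rw [EuclideanSpace.dist_eq]
  simp [pt, Real.dist_eq, Real.sqrt_sq_eq_abs]

/-- colours can be taken real -/
theorem exists_real_colouring {n : ℕ} {C : Type u} (c : E n → C) :
    ∃ χ : E n → ℝ, ∀ x y, χ x = χ y ↔ c x = c y := by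
  obtain ⟨g, hg⟩ := MeasureTheory.exists_measurableEmbedding_real (E n)
  have hex : ∀ x : E n, ∃ y : E n, c y = c x := fun x => ⟨x, rfl⟩
  let rep : Set.range c → E n := fun γ => γ.2.choose
  have hrep : ∀ γ : Set.range c, c (rep γ) = γ.1 := fun γ => γ.2.choose_spec
  refine ⟨fun x => g (rep ⟨c x, x, rfl⟩), fun x y => ⟨fun h => ?_, fun h => ?_⟩⟩
  · have h1 := hg.injective h
    have h2 := hrep ⟨c x, x, rfl⟩
    have h3 := hrep ⟨c y, y, rfl⟩
    rw [h1] at h2
    exact h2.symm.trans h3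
  · have : (⟨c x, x, rfl⟩ : Set.range c) = ⟨c y, y, rfl⟩ := Subtype.ext h
    simp only [this]

/-- **`{0, 1, 2}` is canonically Ramsey but not Ramsey.** Hence not every canonically Ramsey set
is Ramsey. -/
theorem result : zeroOneTwo.Finite ∧ IsCanonicallyRamsey.{u} zeroOneTwo ∧
    ¬ IsRamsey zeroOneTwo ∧
    ∀ n : ℕ, ∃ c : E n → Fin 4, ∀ φ : E 1 → E n, Isometry φ →
      ¬ Monochromatic c (φ '' zeroOneTwo) := by
  have hbad : ∀ n : ℕ, ∃ c : E n → Fin 4, ∀ φ : E 1 → E n, Isometry φ →
      ¬ Monochromatic c (φ '' zeroOneTwo) := by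
    intro n
    refine ⟨fun x => ⟨(⌊‖x‖ ^ 2⌋ % 4).toNat, by omega⟩, fun φ hφ hmono => ?_⟩
    have m0 : φ (pt 0) ∈ φ '' zeroOneTwo := ⟨pt 0, by simp [zeroOneTwo_eq], rfl⟩
    have m1 : φ (pt 1) ∈ φ '' zeroOneTwo := ⟨pt 1, by simp [zeroOneTwo_eq], rfl⟩
    have m2 : φ (pt 2) ∈ φ '' zeroOneTwo := ⟨pt 2, by simp [zeroOneTwo_eq], rfl⟩
    have c01 := hmono _ m0 _ m1
    have c12 := hmono _ m1 _ m2
    simp only [Fin.mk.injEq] at c01 c12
    have d01 : dist (φ (pt 0)) (φ (pt 1)) = 1 := by
      rw [hφ.dist_eq, dist_pt]; norm_num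
    have d12 : dist (φ (pt 1)) (φ (pt 2)) = 1 := by
      rw [hφ.dist_eq, dist_pt]; norm_num
    have d02 : dist (φ (pt 0)) (φ (pt 2)) = 2 := by
      rw [hφ.dist_eq, dist_pt]; norm_num
    exact Pool.Agent.Helper50.Canon.floor_mod _ _ _ d01 d12 d02 (by omega) (by omega)
  refine ⟨?_, ?_, ?_, hbad⟩
  · rw [zeroOneTwo_eq]
    exact Set.toFinite _
  · obtain ⟨n, hn⟩ := Pool.Agent.Helper50.Canon.canon Pool.Agent.Helper50.Canon.CD.noSign
    refine ⟨n, ?_, fun C c => ?_⟩
    · obtain ⟨x, u, hu, _⟩ := hn (fun _ => 0)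
      rcases Nat.eq_zero_or_pos n with h0 | h0
      · subst h0
        exfalso
        have : u = 0 := Subsingleton.elim _ _
        rw [this, norm_zero] at hu
        exact zero_ne_one hu
      · exact h0
    · obtain ⟨χ, hχ⟩ := exists_real_colouring c
      obtain ⟨x, u, hu, hTwo⟩ := hn χ
      refine ⟨fun p => x + (p 0) • u, ?_, ?_⟩
      · apply Isometry.of_dist_eq
        intro p q
        rw [dist_eq_norm, dist_eq_norm]
        have h1 : x + p 0 • u - (x + q 0 • u) = (p 0 - q 0) • u := by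
          rw [sub_smul]; abel
        rw [h1, norm_smul, hu, mul_one, EuclideanSpace.norm_eq]
        simp [Real.sqrt_sq_eq_abs]
      · have v0 : x + (pt 0 0) • u = x := by rw [pt_apply]; simp
        have v1 : x + (pt 1 0) • u = x + u := by rw [pt_apply]; simp
        have v2 : x + (pt 2 0) • u = x + (u + u) := by rw [pt_apply]; simp [two_smul]
        have himg : (fun p : E 1 => x + (p 0) • u) '' zeroOneTwo = {x, x + u, x + (u + u)} := by
          rw [zeroOneTwo_eq, Set.image_insert_eq, Set.image_insert_eq, Set.image_singleton,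
            v0, v1, v2]
        rw [himg]
        unfold Pool.Agent.Helper50.Canon.Two at hTwo
        simp only [ne_eq, hχ] at hTwo
        unfold Monochromatic Rainbow Set.InjOn
        simp only [Set.mem_insert_iff, Set.mem_singleton_iff, forall_eq_or_imp, forall_eq]
        by_cases h1 : c x = c (x + u)
        · by_cases h2 : c (x + u) = c (x + (u + u))
          · left
            simp [h1, h2]
          · exact absurd (Or.inl ⟨h1, h2⟩) hTwo
        · by_cases h2 : c (x + u) = c (x + (u + u))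
          · exact absurd (Or.inr (Or.inl ⟨h2, h1⟩)) hTwo
          · by_cases h3 : c x = c (x + (u + u))
            · exact absurd (Or.inr (Or.inr ⟨h3, h1⟩)) hTwo
            · right
              refine ⟨⟨fun _ => trivial, fun h => absurd h h1, fun h => absurd h h3⟩,
                ⟨fun h => absurd h.symm h1, fun _ => trivial, fun h => absurd h h2⟩,
                ⟨fun h => absurd h.symm h3, fun h => absurd h.symm h2, fun _ => trivial⟩⟩
  · intro hR
    obtain ⟨n, _, hn⟩ := hR 4 (by norm_num)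
    obtain ⟨c, hc⟩ := hbad n
    obtain ⟨φ, hφ, hmono⟩ := hn c
    exact hc φ hφ hmono

end Pool.Agent.Results.MP_3ba0ec_co.CanonicalNotRamsey
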